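import Pool.Agent.helper18.DH.SpecM

/-!
# d2:MLPC (helper33): Lipschitz constants of second derivatives
-/

set_option autoImplicit false

open Filter Topology MeasureTheory
open scoped commutatorElement

namespace Pool.Agent.helper90.DH

open Pool.Agent.helper64.D2

theorem LPC_nonneg {g : DD} {a : ℝ} (h : Sz g a) : 0 ≤ a := (abs_nonneg _).trans (h 0)

theorem LPC_Lnonneg {g : DD} {L : ℝ} (h : Lp g L) : 0 ≤ L := by
  have h1 := h 0 1
  have h2 : |(0 : ℝ) - 1| = 1 := by norm_num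
  rw [h2, mul_one] at h1
  exact (abs_nonneg _).trans h1

/-- the derivative is Lipschitz with constant `a`. -/
theorem LPC_d {g : DD} {a : ℝ} (h : Sz g a) (x y : ℝ) : |deriv (ev g) x - deriv (ev g) y| ≤ a * |x - y| := by
  have hd : Differentiable ℝ (deriv (ev g)) := by
    have h2 : ContDiff ℝ (1 + 1) (ev g) := by
      have e : (1 + 1 : WithTop ℕ∞) = 2 := by norm_num
      rw [e]
      exact ev_contDiff g
    exact (contDiff_succ_iff_deriv.1 h2).2.2.differentiable (by norm_num)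
  have := Convex.norm_image_sub_le_of_norm_deriv_le (s := Set.univ) (f := deriv (ev g)) (C := a)
    (fun z _ => hd z) (fun z _ => by rw [Real.norm_eq_abs]; exact h z) convex_univ (Set.mem_univ y) (Set.mem_univ x)
  simpa [Real.norm_eq_abs] using this

/-- the map is Lipschitz with constant `1 + a`. -/
theorem LPC_0 (hSZC : SZC_stmt) {g : DD} {a : ℝ} (h : Sz g a) (x y : ℝ) : |ev g x - ev g y| ≤ (1 + a) * |x - y| := by
  have hd : Differentiable ℝ (ev g) := (ev_contDiff g).differentiable (by norm_num)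
  have hb : ∀ z, ‖deriv (ev g) z‖ ≤ 1 + a := by
    intro z
    have h1 := (hSZC.2.1 g a h z).1
    rw [abs_le] at h1
    rw [Real.norm_eq_abs, abs_le]
    have ha := LPC_nonneg h
    constructor <;> nlinarith [h1.1, h1.2, hSZC.2.1 g a h z, deriv (ev g) z]
  have := Convex.norm_image_sub_le_of_norm_deriv_le (s := Set.univ) (f := ev g) (C := 1 + a)
    (fun z _ => hd z) (fun z _ => hb z) convex_univ (Set.mem_univ y) (Set.mem_univ x)
  simpa [Real.norm_eq_abs] using this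

theorem LPC (hSZC : SZC_stmt) (hNCA : NCA_stmt) : LPC_stmt := by
  obtain ⟨n0, n1, n2, n3, n4, -⟩ := hNCA
  constructor
  · intro g h a L M ha hg hh hL hM x y
    have ha0 := LPC_nonneg hg
    have hL0 := LPC_Lnonneg hL
    have hM0 := LPC_Lnonneg hM
    set d : ℝ := |x - y| with hd
    have hd0 : 0 ≤ d := abs_nonneg _
    rw [n2 g h x, n2 g h y]
    have e1 : |d2 (ev g) (ev h x) - d2 (ev g) (ev h y)| ≤ L * ((1 + a) * d) :=
      (hL _ _).trans (mul_le_mul_of_nonneg_left (LPC_0 hSZC hh x y) hL0)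
    have e2 : |deriv (ev g) (ev h x) - deriv (ev g) (ev h y)| ≤ a * ((1 + a) * d) :=
      (LPC_d hg _ _).trans (mul_le_mul_of_nonneg_left (LPC_0 hSZC hh x y) ha0)
    have e3 : |deriv (ev h) x - deriv (ev h) y| ≤ a * d := LPC_d hh x y
    have e4 : |d2 (ev h) x - d2 (ev h) y| ≤ M * d := hM x y
    have b1 : |d2 (ev g) (ev h y)| ≤ a := hg _
    have b2 : |d2 (ev h) x| ≤ a := hh _
    have c1 := (hSZC.2.1 h a hh x).1
    have c2 := (hSZC.2.1 h a hh y).1
    have c3 := (hSZC.2.1 g a hg (ev h y)).1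
    have p1 := n0 h x
    have p2 := n0 h y
    have p3 := n0 g (ev h y)
    rw [abs_le] at c1 c2 c3
    have q1 : deriv (ev h) x ≤ 1 + a := by linarith [c1.2]
    have q2 : deriv (ev h) y ≤ 1 + a := by linarith [c2.2]
    have q3 : deriv (ev g) (ev h y) ≤ 1 + a := by linarith [c3.2]
    have key : d2 (ev g) (ev h x) * deriv (ev h) x ^ 2 + deriv (ev g) (ev h x) * d2 (ev h) x -
        (d2 (ev g) (ev h y) * deriv (ev h) y ^ 2 + deriv (ev g) (ev h y) * d2 (ev h) y) =
        (d2 (ev g) (ev h x) - d2 (ev g) (ev h y)) * deriv (ev h) x ^ 2 +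
        d2 (ev g) (ev h y) * ((deriv (ev h) x - deriv (ev h) y) * (deriv (ev h) x + deriv (ev h) y)) +
        (deriv (ev g) (ev h x) - deriv (ev g) (ev h y)) * d2 (ev h) x +
        deriv (ev g) (ev h y) * (d2 (ev h) x - d2 (ev h) y) := by ring
    rw [key]
    have t1 : |(d2 (ev g) (ev h x) - d2 (ev g) (ev h y)) * deriv (ev h) x ^ 2| ≤ L * ((1 + a) * d) * (1 + a) ^ 2 := by
      rw [abs_mul, abs_of_nonneg (sq_nonneg (deriv (ev h) x))]
      exact mul_le_mul e1 (pow_le_pow_left₀ p1.le q1 2) (sq_nonneg _) (by positivity)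
    have t2 : |d2 (ev g) (ev h y) * ((deriv (ev h) x - deriv (ev h) y) * (deriv (ev h) x + deriv (ev h) y))| ≤
        a * (a * d * (2 * (1 + a))) := by
      rw [abs_mul, abs_mul, abs_of_nonneg (by linarith : 0 ≤ deriv (ev h) x + deriv (ev h) y)]
      refine mul_le_mul b1 (mul_le_mul e3 (by linarith) (by linarith) (by positivity)) (by positivity) ha0
    have t3 : |(deriv (ev g) (ev h x) - deriv (ev g) (ev h y)) * d2 (ev h) x| ≤ a * ((1 + a) * d) * a := by
      rw [abs_mul]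
      exact mul_le_mul e2 b2 (abs_nonneg _) (by positivity)
    have t4 : |deriv (ev g) (ev h y) * (d2 (ev h) x - d2 (ev h) y)| ≤ (1 + a) * (M * d) := by
      rw [abs_mul, abs_of_nonneg p3.le]
      exact mul_le_mul q3 e4 (abs_nonneg _) (by positivity)
    have hsum : L * ((1 + a) * d) * (1 + a) ^ 2 + a * (a * d * (2 * (1 + a))) + a * ((1 + a) * d) * a +
        (1 + a) * (M * d) ≤ (2 * L + 2 * M + 1) * d := by
      have k1 : (1 + a) ^ 3 ≤ 2 := by
        calc (1 + a) ^ 3 ≤ (1 + 1 / 100) ^ 3 := pow_le_pow_left₀ (by positivity) (by linarith) 3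
          _ ≤ 2 := by norm_num
      have k2 : 3 * a ^ 2 * (1 + a) ≤ 1 := by nlinarith [sq_nonneg a]
      have k3 : L * d * (1 + a) ^ 3 ≤ L * d * 2 := mul_le_mul_of_nonneg_left k1 (by positivity)
      have k4 : d * (3 * a ^ 2 * (1 + a)) ≤ d * 1 := mul_le_mul_of_nonneg_left k2 hd0
      have k5 : M * d * (1 + a) ≤ M * d * 2 := mul_le_mul_of_nonneg_left (by linarith) (by positivity)
      nlinarith
    refine (abs_add_le _ _).trans ?_
    refine (add_le_add (abs_add_le _ _) le_rfl).trans ?_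
    refine (add_le_add (add_le_add (abs_add_le _ _) le_rfl) le_rfl).trans ?_
    linarith
  · intro g a L ha hg hL x y
    have ha0 := LPC_nonneg hg
    have hL0 := LPC_Lnonneg hL
    have hi : Sz g⁻¹ (2 * a) := hSZC.2.2.2.1 g a hg (by linarith)
    set d : ℝ := |x - y| with hd
    have hd0 : 0 ≤ d := abs_nonneg _
    have form : ∀ z, d2 (ev g⁻¹) z = -(d2 (ev g) (ev g⁻¹ z) * deriv (ev g⁻¹) z ^ 3) := by
      intro z
      rw [n4 g z, n3 g z]
      have := (n0 g (ev g⁻¹ z)).ne'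
      field_simp
    rw [form x, form y]
    have e1 : |d2 (ev g) (ev g⁻¹ x) - d2 (ev g) (ev g⁻¹ y)| ≤ L * ((1 + 2 * a) * d) :=
      (hL _ _).trans (mul_le_mul_of_nonneg_left (LPC_0 hSZC hi x y) hL0)
    have e3 : |deriv (ev g⁻¹) x - deriv (ev g⁻¹) y| ≤ 2 * a * d := LPC_d hi x y
    have b1 : |d2 (ev g) (ev g⁻¹ y)| ≤ a := hg _
    have c1 := (hSZC.2.1 g⁻¹ (2 * a) hi x).1
    have c2 := (hSZC.2.1 g⁻¹ (2 * a) hi y).1
    have p1 := n0 g⁻¹ x
    have p2 := n0 g⁻¹ y
    rw [abs_le] at c1 c2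
    set u : ℝ := deriv (ev g⁻¹) x with hu
    set v : ℝ := deriv (ev g⁻¹) y with hv
    have q1 : u ≤ 51 / 50 := by linarith [c1.2]
    have q2 : v ≤ 51 / 50 := by linarith [c2.2]
    have key : -(d2 (ev g) (ev g⁻¹ x) * u ^ 3) - -(d2 (ev g) (ev g⁻¹ y) * v ^ 3) =
        -((d2 (ev g) (ev g⁻¹ x) - d2 (ev g) (ev g⁻¹ y)) * u ^ 3 +
        d2 (ev g) (ev g⁻¹ y) * ((u - v) * (u ^ 2 + u * v + v ^ 2))) := by ring
    rw [key, abs_neg]
    have k1 : u ^ 3 ≤ 11 / 10 := by
      calc u ^ 3 ≤ (51 / 50) ^ 3 := pow_le_pow_left₀ p1.le q1 3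
        _ ≤ 11 / 10 := by norm_num
    have k2 : u ^ 2 + u * v + v ^ 2 ≤ 4 := by nlinarith
    have k3 : 0 ≤ u ^ 2 + u * v + v ^ 2 := by positivity
    have t1 : |(d2 (ev g) (ev g⁻¹ x) - d2 (ev g) (ev g⁻¹ y)) * u ^ 3| ≤ L * ((1 + 2 * a) * d) * (11 / 10) := by
      rw [abs_mul, abs_of_nonneg (by positivity : 0 ≤ u ^ 3)]
      exact mul_le_mul e1 k1 (by positivity) (by positivity)
    have t2 : |d2 (ev g) (ev g⁻¹ y) * ((u - v) * (u ^ 2 + u * v + v ^ 2))| ≤ a * (2 * a * d * 4) := by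
      rw [abs_mul, abs_mul, abs_of_nonneg k3]
      exact mul_le_mul b1 (mul_le_mul e3 k2 k3 (by positivity)) (by positivity) ha0
    have k4 : L * ((1 + 2 * a) * d) * (11 / 10) ≤ 2 * L * d := by
      have : (1 + 2 * a) * (11 / 10) ≤ 2 := by linarith
      nlinarith [mul_le_mul_of_nonneg_left this (mul_nonneg hL0 hd0)]
    have k5 : a * (2 * a * d * 4) ≤ d := by
      have : 8 * a ^ 2 ≤ 1 := by nlinarith
      nlinarith [mul_le_mul_of_nonneg_left this hd0]
    refine (abs_add_le _ _).trans ?_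
    linarith

end Pool.Agent.helper90.DH
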